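import Mathlib

namespace Pool.Agent.P.MP_2feb70_lc

/-- Infinite Ramsey theorem for `n`-subsets of `ℕ`. -/
theorem inf_ramsey {C : Type} [Finite C] (n : ℕ) :
    ∀ (c : Finset ℕ → C) (S : Set ℕ), S.Infinite →
      ∃ T ⊆ S, T.Infinite ∧ ∃ x : C, ∀ s : Finset ℕ, (↑s : Set ℕ) ⊆ T → s.card = n → c s = x := by
  induction n with
  | zero =>
    intro c S hS
    refine ⟨S, subset_rfl, hS, c ∅, fun s _ hs => ?_⟩
    rw [Finset.card_eq_zero.1 hs]
  | succ n ih =>
    intro c S hS
    have step : ∀ U : {U : Set ℕ // U.Infinite}, ∃ a ∈ U.1, ∃ V : {U : Set ℕ // U.Infinite},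
        V.1 ⊆ U.1 ∧ (∀ b ∈ V.1, a < b) ∧ ∃ x : C, ∀ s : Finset ℕ, (↑s : Set ℕ) ⊆ V.1 →
          s.card = n → c (insert a s) = x := by
      rintro ⟨U, hU⟩
      obtain ⟨a, ha⟩ := hU.nonempty
      have hU' : (U \ Set.Iic a).Infinite := hU.sdiff (Set.finite_Iic a)
      obtain ⟨T, hT, hTi, x, hx⟩ := ih (fun s => c (insert a s)) _ hU'
      refine ⟨a, ha, ⟨T, hTi⟩, fun b hb => (hT hb).1, fun b hb => ?_, x, hx⟩
      have := (hT hb).2
      simpa using this
    choose a ha V hV hlt x hx using step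
    let seq : ℕ → {U : Set ℕ // U.Infinite} := fun k => V^[k] ⟨S, hS⟩
    have seq_succ : ∀ k, seq (k + 1) = V (seq k) := fun k => Function.iterate_succ_apply' V k _
    have anti : Antitone fun k => (seq k).1 := by
      refine antitone_nat_of_succ_le fun k => ?_
      rw [seq_succ]; exact hV _
    have hmem : ∀ k k', k < k' → a (seq k') ∈ (V (seq k)).1 := by
      intro k k' h
      rw [← seq_succ]
      exact anti (Nat.succ_le_of_lt h) (ha _)
    have mono : StrictMono fun k => a (seq k) := fun k k' h => hlt _ _ (hmem k k' h)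
    obtain ⟨y, hy⟩ := Finite.exists_infinite_fiber fun k => x (seq k)
    refine ⟨(fun k => a (seq k)) '' ((fun k => x (seq k)) ⁻¹' {y}), ?_, ?_, y, ?_⟩
    · rintro _ ⟨k, -, rfl⟩
      exact anti (Nat.zero_le k) (ha _)
    · exact (Set.infinite_coe_iff.1 hy).image mono.injective.injOn
    · intro s hs hcard
      have hne : s.Nonempty := Finset.card_pos.1 (by omega)
      obtain ⟨k, hk, hkm⟩ := hs (s.min'_mem hne)
      have hk' : x (seq k) = y := hk
      have hkm' : a (seq k) = s.min' hne := hkm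
      have h1 : insert (a (seq k)) (s.erase (s.min' hne)) = s := by
        rw [hkm']; exact Finset.insert_erase (s.min'_mem hne)
      rw [← h1, ← hk']
      refine hx _ _ ?_ ?_
      · intro b hb
        have hb' := Finset.mem_erase.1 hb
        obtain ⟨k', -, rfl⟩ := hs hb'.2
        have : a (seq k) < a (seq k') := by
          rw [hkm']
          exact lt_of_le_of_ne (s.min'_le _ hb'.2) (Ne.symm hb'.1)
        exact hmem k k' (mono.lt_iff_lt.1 this)
      · rw [Finset.card_erase_of_mem (s.min'_mem hne), hcard]; rfl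

end Pool.Agent.P.MP_2feb70_lc
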