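import Mathlib

namespace Pool.Agent.P.MP_2feb70_lc

open Ordinal

universe u

section KM

variable {X : Type u} (le : X → X → Prop) (e : ℕ → X) (A : Set X)

/-- A finite approximation to a descending chain of ideals. -/
abbrev Node := ℕ × List ℕ × List ℕ

def Node.a (t : Node) (i : ℕ) : ℕ := t.2.1.getD i 0
def Node.w (t : Node) (i : ℕ) : ℕ := t.2.2.getD i 0

def Node.mk' (n : ℕ) (a w : ℕ → ℕ) : Node :=
  (n, (List.range (n + 1)).map a, (List.range (n + 1)).map w)

theorem Node.mk'_a (n : ℕ) (a w : ℕ → ℕ) (i : ℕ) (hi : i ≤ n) : (Node.mk' n a w).a i = a i := by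
  simp [Node.mk', Node.a, List.getD_eq_getElem?_getD, List.getElem?_range (Nat.lt_succ_of_le hi)]

theorem Node.mk'_w (n : ℕ) (a w : ℕ → ℕ) (i : ℕ) (hi : i ≤ n) : (Node.mk' n a w).w i = w i := by
  simp [Node.mk', Node.w, List.getD_eq_getElem?_getD, List.getElem?_range (Nat.lt_succ_of_le hi)]

def Good (t : Node) : Prop :=
  (∀ i ≤ t.1, e (t.a i) ∈ A) ∧
  ∀ i < t.1, le (e (t.a (i + 1))) (e (t.a i)) ∧ le (e (t.w i)) (e (t.a i)) ∧
    ¬ le (e (t.w i)) (e (t.a (i + 1)))

def Ext (t' t : Node) : Prop :=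
  t'.1 = t.1 + 1 ∧ Good le e A t' ∧ (∀ i ≤ t.1, le (e (t.a i)) (e (t'.a i))) ∧
    ∀ i < t.1, t'.w i = t.w i

variable {le e A}

theorem ext_wf [IsPreorder X le] {D : Type u} (car : D → Set X)
    (hA : ∀ x ∈ A, ∀ y, le y x → y ∈ A)
    (hsurj : ∀ B : Set X, B ⊆ A → (∀ x ∈ B, ∀ y, le y x → y ∈ B) →
      (∀ x ∈ B, ∀ y ∈ B, ∃ z ∈ B, le x z ∧ le y z) → ∃ d, car d = B)
    (hwf : WellFounded fun d d' : D => car d ⊂ car d') : WellFounded (Ext le e A) := by
  rw [wellFounded_iff_isEmpty_descending_chain] at hwf ⊢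
  refine ⟨fun ⟨t, ht⟩ => ?_⟩
  -- shift by one so that every node is good
  let s : ℕ → Node := fun k => t (k + 1)
  have hs : ∀ k, Ext le e A (s (k + 1)) (s k) := fun k => ht (k + 1)
  have hgood : ∀ k, Good le e A (s k) := fun k => (ht k).2.1
  have hn : ∀ k, (s k).1 = (s 0).1 + k := by
    intro k
    induction k with
    | zero => rfl
    | succ k ih => rw [(hs k).1, ih]; rfl
  have hmono : ∀ k m, k ≤ m → ∀ i ≤ (s k).1, le (e ((s k).a i)) (e ((s m).a i)) := by
    intro k m hkm i hi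
    induction m, hkm using Nat.le_induction with
    | base => exact refl_of le _
    | succ m hkm ih =>
      refine trans_of le ih ((hs m).2.2.1 i ?_)
      rw [hn] at hi ⊢; omega
  have hw : ∀ k m, k ≤ m → ∀ i < (s k).1, (s m).w i = (s k).w i := by
    intro k m hkm i hi
    induction m, hkm using Nat.le_induction with
    | base => rfl
    | succ m hkm ih =>
      rw [← ih]
      refine (hs m).2.2.2 i ?_
      rw [hn] at hi ⊢; omega
  let I : ℕ → Set X := fun i => {x | ∃ k, i ≤ (s k).1 ∧ le x (e ((s k).a i))}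
  have hI : ∀ i, ∃ d, car d = I i := by
    intro i
    refine hsurj _ ?_ ?_ ?_
    · rintro x ⟨k, hk, hx⟩
      exact hA _ ((hgood k).1 i hk) _ hx
    · rintro x ⟨k, hk, hx⟩ y hy
      exact ⟨k, hk, trans_of le hy hx⟩
    · rintro x ⟨k, hk, hx⟩ y ⟨m, hm, hy⟩
      refine ⟨e ((s (max k m)).a i), ⟨max k m, ?_, refl_of le _⟩, ?_, ?_⟩
      · rw [hn] at hk ⊢; have := le_max_left k m; omega
      · exact trans_of le hx (hmono k _ (le_max_left _ _) i hk)
      · exact trans_of le hy (hmono m _ (le_max_right _ _) i hm)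
  choose d hd using hI
  refine hwf.false ⟨d, fun i => ?_⟩
  rw [hd, hd]
  have hi1 : i < (s (i + 1)).1 := by rw [hn]; omega
  refine ⟨?_, fun h => ?_⟩
  · rintro x ⟨k, hk, hx⟩
    exact ⟨k, by omega, trans_of le hx ((hgood k).2 i (by omega)).1⟩
  · have h1 : e ((s (i + 1)).w i) ∈ I i := ⟨i + 1, hi1.le, ((hgood _).2 i hi1).2.1⟩
    obtain ⟨k, hk, hx⟩ := h h1
    have hm : i < (s (max k (i + 1))).1 := by
      rw [hn]; have := le_max_right k (i + 1); omega
    refine ((hgood (max k (i + 1))).2 i hm).2.2 ?_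
    rw [hw (i + 1) _ (le_max_right _ _) i hi1]
    exact trans_of le hx (hmono k _ (le_max_left _ _) _ hk)

theorem exists_tower [IsPreorder X le] (N : ℕ) : ∀ (I : ℕ → Set X) (u : ℕ → X),
    (∀ i ≤ N, ∀ x ∈ I i, ∀ y ∈ I i, ∃ k, e k ∈ I i ∧ le x (e k) ∧ le y (e k)) →
    (∀ i < N, I (i + 1) ⊆ I i) → (∀ i ≤ N, u i ∈ I i) →
    ∃ a : ℕ → ℕ, ∀ i ≤ N, e (a i) ∈ I i ∧ le (u i) (e (a i)) ∧
      (i < N → le (e (a (i + 1))) (e (a i))) := by
  induction N with
  | zero =>
    intro I u h1 _ h3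
    obtain ⟨k, hk, hk', -⟩ := h1 0 le_rfl _ (h3 0 le_rfl) _ (h3 0 le_rfl)
    refine ⟨fun _ => k, fun i hi => ?_⟩
    obtain rfl : i = 0 := by omega
    exact ⟨hk, hk', fun h => absurd h (lt_irrefl _)⟩
  | succ N ih =>
    intro I u h1 h2 h3
    obtain ⟨a, ha⟩ := ih (fun i => I (i + 1)) (fun i => u (i + 1))
      (fun i hi => h1 (i + 1) (by omega)) (fun i hi => h2 (i + 1) (by omega))
      (fun i hi => h3 (i + 1) (by omega))
    obtain ⟨k, hk, hk1, hk2⟩ := h1 0 (by omega) _ (h3 0 (by omega)) _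
      (h2 0 (by omega) (ha 0 (by omega)).1)
    refine ⟨fun i => Nat.casesOn i k a, fun i hi => ?_⟩
    cases i with
    | zero => exact ⟨hk, hk1, fun _ => hk2⟩
    | succ i =>
      obtain ⟨b1, b2, b3⟩ := ha i (by omega)
      exact ⟨b1, b2, fun h => b3 (by omega)⟩

/-- Boundedness: in a preorder with countably many equivalence classes in `A`, if the ideals
contained in `A` are well-founded under inclusion then their ranks are countable. -/
theorem rank_lt_omega_one [IsPreorder X le] {D : Type u} (car : D → Set X)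
    (hA : ∀ x ∈ A, ∀ y, le y x → y ∈ A)
    (he : ∀ x ∈ A, ∃ k, le x (e k) ∧ le (e k) x)
    (hsub : ∀ d, car d ⊆ A)
    (hlow : ∀ d, ∀ x ∈ car d, ∀ y, le y x → y ∈ car d)
    (hdir : ∀ d, ∀ x ∈ car d, ∀ y ∈ car d, ∃ z ∈ car d, le x z ∧ le y z)
    (hsurj : ∀ B : Set X, B ⊆ A → (∀ x ∈ B, ∀ y, le y x → y ∈ B) →
      (∀ x ∈ B, ∀ y ∈ B, ∃ z ∈ B, le x z ∧ le y z) → ∃ d, car d = B)
    [hwf : IsWellFounded D fun d d' : D => car d ⊂ car d'] (d : D) :
    IsWellFounded.rank (fun d d' : D => car d ⊂ car d') d < ω₁ := by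
  have hE := ext_wf (e := e) car hA hsurj hwf.wf
  have hdir' : ∀ d, ∀ x ∈ car d, ∀ y ∈ car d, ∃ k, e k ∈ car d ∧ le x (e k) ∧ le y (e k) := by
    intro d x hx y hy
    obtain ⟨z, hz, h1, h2⟩ := hdir d x hx y hy
    obtain ⟨k, h3, h4⟩ := he z (hsub d hz)
    exact ⟨k, hlow d z hz _ h4, trans_of le h1 h3, trans_of le h2 h3⟩
  have hempty : ∀ d, car d = ∅ →
      IsWellFounded.rank (fun d d' : D => car d ⊂ car d') d = 0 := by
    intro d hd
    rw [IsWellFounded.rank_eq]
    have : IsEmpty {b // car b ⊂ car d} := ⟨fun ⟨b, hb⟩ => by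
      rw [hd] at hb; exact hb.2 (Set.empty_subset _)⟩
    exact ciSup_of_empty _
  have main : ∀ t : Node, ∃ β : Ordinal.{u}, β < ω₁ ∧ (Good le e A t → ∀ I : ℕ → D,
      (∀ i < t.1, car (I (i + 1)) ⊆ car (I i)) → (∀ i ≤ t.1, e (t.a i) ∈ car (I i)) →
      (∀ i < t.1, e (t.w i) ∉ car (I (i + 1))) →
      IsWellFounded.rank (fun d d' : D => car d ⊂ car d') (I t.1) ≤ β) := by
    intro t
    induction t using hE.induction with
    | _ t ih =>
    have ih' : ∀ t' : Node, ∃ β : Ordinal.{u}, β < ω₁ ∧ (Ext le e A t' t → ∀ I : ℕ → D,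
        (∀ i < t'.1, car (I (i + 1)) ⊆ car (I i)) → (∀ i ≤ t'.1, e (t'.a i) ∈ car (I i)) →
        (∀ i < t'.1, e (t'.w i) ∉ car (I (i + 1))) →
        IsWellFounded.rank (fun d d' : D => car d ⊂ car d') (I t'.1) ≤ β) := by
      intro t'
      by_cases h : Ext le e A t' t
      · obtain ⟨β, h1, h2⟩ := ih t' h
        exact ⟨β, h1, fun _ => h2 h.2.1⟩
      · exact ⟨0, omega_pos 1, fun h' => absurd h' h⟩
    choose b hb1 hb2 using ih'
    have hlt : ∀ t', Order.succ (b t') < ω₁ := fun t' =>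
      (Cardinal.isSuccLimit_omega 1).succ_lt (hb1 t')
    refine ⟨⨆ t', Order.succ (b t'), Ordinal.iSup_lt_omega_one hlt, fun hg I h1 h2 h3 => ?_⟩
    have hle : ∀ t', Order.succ (b t') ≤ ⨆ t', Order.succ (b t') := fun t' =>
      le_ciSup (f := fun t' => Order.succ (b t')) ⟨ω₁, by
        rintro _ ⟨t', rfl⟩; exact (hlt t').le⟩ t'
    rw [IsWellFounded.rank_eq]
    refine Ordinal.iSup_le fun ⟨J, hJ⟩ => ?_
    rcases (car J).eq_empty_or_nonempty with hJe | ⟨y, hy⟩
    · refine le_trans (Order.succ_le_succ ?_) (hle t)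
      rw [hempty J hJe]; exact zero_le
    · obtain ⟨x, hx1, hx2⟩ := Set.exists_of_ssubset hJ
      obtain ⟨kx, hkx1, hkx2⟩ := he x (hsub _ hx1)
      have hkx3 : e kx ∈ car (I t.1) := hlow _ _ hx1 _ hkx2
      have hkx4 : e kx ∉ car J := fun h => hx2 (hlow _ _ h _ hkx1)
      obtain ⟨z, hz, hz1, hz2⟩ := hdir _ _ (h2 t.1 le_rfl) _ hkx3
      let I' : ℕ → D := fun i => if i ≤ t.1 then I i else J
      let u : ℕ → X := fun i => if i < t.1 then e (t.a i) else if i = t.1 then z else y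
      let w' : ℕ → ℕ := fun i => if i < t.1 then t.w i else kx
      have hI'1 : ∀ i < t.1 + 1, car (I' (i + 1)) ⊆ car (I' i) := by
        intro i hi
        by_cases h : i < t.1
        · simp only [I', if_pos h.le, if_pos (Nat.succ_le_of_lt h)]
          exact h1 i h
        · obtain rfl : i = t.1 := by omega
          simp only [I', le_refl, if_true, if_neg (Nat.not_succ_le_self _)]
          exact hJ.1
      obtain ⟨a', ha'⟩ := exists_tower (le := le) (e := e) (t.1 + 1) (fun i => car (I' i)) u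
        (fun i _ => hdir' _) hI'1 (by
          intro i hi
          by_cases h : i < t.1
          · simp only [I', u, if_pos h, if_pos h.le]; exact h2 i h.le
          · by_cases h' : i = t.1
            · subst h'
              simp only [I', u, lt_irrefl, if_false, le_refl, if_true]; exact hz
            · have h'' : ¬ i ≤ t.1 := by omega
              simp only [I', u, if_neg h, if_neg h', if_neg h'']; exact hy)
      have hw'n : ∀ i < t.1 + 1, e (w' i) ∉ car (I' (i + 1)) := by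
        intro i hi
        by_cases h : i < t.1
        · simp only [I', w', if_pos h, if_pos (Nat.succ_le_of_lt h)]
          exact h3 i h
        · obtain rfl : i = t.1 := by omega
          simp only [I', w', lt_irrefl, if_false, if_neg (Nat.not_succ_le_self _)]
          exact hkx4
      have hau : ∀ i ≤ t.1, le (e (t.a i)) (u i) ∧ le (e (w' i)) (u i) := by
        intro i hi
        by_cases h : i < t.1
        · simp only [u, w', if_pos h]
          exact ⟨refl_of le _, (hg.2 i h).2.1⟩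
        · obtain rfl : i = t.1 := by omega
          simp only [u, w', lt_irrefl, if_false, if_true]
          exact ⟨hz1, hz2⟩
      let t' : Node := Node.mk' (t.1 + 1) a' w'
      have ht'1 : t'.1 = t.1 + 1 := rfl
      have ht'a : ∀ i ≤ t.1 + 1, t'.a i = a' i := Node.mk'_a _ _ _
      have ht'w : ∀ i ≤ t.1 + 1, t'.w i = w' i := Node.mk'_w _ _ _
      have hext : Ext le e A t' t := by
        refine ⟨rfl, ⟨fun i hi => ?_, fun i hi => ?_⟩, fun i hi => ?_, fun i hi => ?_⟩
        · rw [ht'a i hi]; exact hsub _ (ha' i hi).1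
        · rw [ht'1] at hi
          rw [ht'a i hi.le, ht'a (i + 1) hi, ht'w i hi.le]
          refine ⟨(ha' i hi.le).2.2 hi, trans_of le (hau i (by omega)).2 (ha' i hi.le).2.1,
            fun h => hw'n i hi (hlow _ _ (ha' (i + 1) hi).1 _ h)⟩
        · rw [ht'a i (by omega)]
          exact trans_of le (hau i hi).1 (ha' i (by omega)).2.1
        · rw [ht'w i (by omega)]; simp only [w', if_pos hi]
      have := hb2 t' hext I' hI'1 (fun i hi => by rw [ht'a i hi]; exact (ha' i hi).1)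
        (fun i hi => by rw [ht'w i (le_of_lt hi)]; exact hw'n i hi)
      have hJ' : I' t'.1 = J := by
        simp only [I', ht'1, if_neg (Nat.not_succ_le_self _)]
      rw [hJ'] at this
      exact le_trans (Order.succ_le_succ this) (hle t')
  rcases (car d).eq_empty_or_nonempty with hd | ⟨y, hy⟩
  · rw [hempty d hd]; exact omega_pos 1
  · obtain ⟨k, hk, -, -⟩ := hdir' d y hy y hy
    obtain ⟨β, h1, h2⟩ := main (Node.mk' 0 (fun _ => k) (fun _ => 0))
    have h0 : ∀ i ≤ 0, (Node.mk' 0 (fun _ => k) (fun _ => 0)).a i = k := fun i hi =>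
      Node.mk'_a _ _ _ i hi
    refine lt_of_le_of_lt (h2 ⟨fun i hi => ?_, fun i hi => absurd hi (Nat.not_lt_zero _)⟩
      (fun _ => d) (fun i hi => absurd hi (Nat.not_lt_zero _)) (fun i hi => ?_)
      (fun i hi => absurd hi (Nat.not_lt_zero _))) h1
    · rw [h0 i hi]; exact hsub _ hk
    · rw [h0 i hi]; exact hk

end KM

end Pool.Agent.P.MP_2feb70_lc
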