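import Mathlib

namespace Pool.Agent.P.MP_2feb70_lc

open FirstOrder CategoryTheory

/-- An age of similarity type `L`: a collection of finite `L`-structures that is hereditary
(closed under structures that embed into a member) and directed (joint embedding). -/
def IsAge (L : FirstOrder.Language.{0, 0}) (A : Set (Bundled.{0} L.Structure)) : Prop :=
  (∀ G ∈ A, Finite G) ∧
  (∀ G ∈ A, ∀ H : Bundled.{0} L.Structure, Nonempty (H ↪[L] G) → H ∈ A) ∧
  (∀ G ∈ A, ∀ H ∈ A, ∃ K ∈ A, Nonempty (G ↪[L] K) ∧ Nonempty (H ↪[L] K))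

/-- `D(A)`: the collection of all ages contained in `A`. -/
def Subages (L : FirstOrder.Language.{0, 0}) (A : Set (Bundled.{0} L.Structure)) : Type 1 :=
  {B : Set (Bundled.{0} L.Structure) // IsAge L B ∧ B ⊆ A}

/-- Strict inclusion on `D(A)`. -/
def Below (L : FirstOrder.Language.{0, 0}) (A : Set (Bundled.{0} L.Structure)) (B C : Subages L A) : Prop :=
  B.1 ⊂ C.1

/-- The height `h(A)` of an age `A` whose `D(A)` is well-founded: the rank of `A` in `D(A)`,
where `rank B = sup {rank C + 1 : C ⊊ B}`. -/
noncomputable def height (L : FirstOrder.Language.{0, 0}) (A : Set (Bundled.{0} L.Structure))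
    (hA : IsAge L A) [IsWellFounded (Subages L A) (Below L A)] : Ordinal.{1} :=
  IsWellFounded.rank (Below L A) ⟨A, hA, subset_rfl⟩

end Pool.Agent.P.MP_2feb70_lc
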