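import Mathlib

namespace Pool.Agent.P.MP_2feb70_lc

variable (ρ : ℕ → Ordinal.{1})

/-- The strict order on labels. -/
def lab_lt (i j : ℕ) : Prop := i < j ∧ ρ i ≤ ρ j

/-- The weak order on labels. -/
def lab_le (i j : ℕ) : Prop := i ≤ j ∧ ρ i ≤ ρ j

/-- `Ch t j`: the list `t ++ [j]` is increasing for `lab_lt`. -/
def Ch : List ℕ → ℕ → Prop
  | [], _ => True
  | i :: t, j => lab_lt ρ i (t.headD j) ∧ Ch t j

/-- The label of a node. -/
def label (p : List ℕ) : ℕ := p.headD 0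

/-- The descendants of a node. -/
def cone (p : List ℕ) : Set (List ℕ) := {q | ∃ t, q = t ++ p ∧ Ch ρ t (label p)}

variable {ρ}

theorem headD_append (t s : List ℕ) (j : ℕ) : (t ++ s).headD j = t.headD (s.headD j) := by
  cases t <;> simp

theorem label_append (t p : List ℕ) : label (t ++ p) = t.headD (label p) := headD_append _ _ _

theorem Ch_append (t s : List ℕ) (j : ℕ) :
    Ch ρ (t ++ s) j ↔ Ch ρ t (s.headD j) ∧ Ch ρ s j := by
  induction t with
  | nil => simp [Ch]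
  | cons i t ih =>
    simp only [List.cons_append, Ch, ih, headD_append, and_assoc]

theorem Ch_le {t : List ℕ} {j : ℕ} (h : Ch ρ t j) : ρ (t.headD j) ≤ ρ j := by
  induction t with
  | nil => exact le_rfl
  | cons i t ih => exact h.1.2.trans (ih h.2)

theorem Ch_finite (j : ℕ) : {t | Ch ρ t j}.Finite := by
  induction j using Nat.strong_induction_on with
  | _ j ih =>
    have : {t | Ch ρ t j} ⊆ {[]} ∪ ⋃ i ∈ Set.Iio j, (fun t => t ++ [i]) '' {t | Ch ρ t i} := by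
      intro t ht
      rcases List.eq_nil_or_concat t with rfl | ⟨t', i, rfl⟩
      · exact Or.inl rfl
      · right
        rw [List.concat_eq_append] at ht ⊢
        have h := (Ch_append t' [i] j).1 ht
        exact Set.mem_biUnion (show i ∈ Set.Iio j from h.2.1.1) ⟨t', h.1, rfl⟩
    exact ((Set.finite_singleton _).union
      ((Set.finite_Iio j).biUnion fun i hi => (ih i hi).image _)).subset this

theorem cone_finite (p : List ℕ) : (cone ρ p).Finite := by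
  refine ((Ch_finite (ρ := ρ) (label p)).image (fun t => t ++ p)).subset ?_
  rintro _ ⟨t, rfl, ht⟩
  exact ⟨t, ht, rfl⟩

theorem self_mem_cone (p : List ℕ) : p ∈ cone ρ p := ⟨[], rfl, trivial⟩

theorem cone_subset {p q : List ℕ} (h : q ∈ cone ρ p) : cone ρ q ⊆ cone ρ p := by
  obtain ⟨s, rfl, hs⟩ := h
  rintro _ ⟨t, rfl, ht⟩
  refine ⟨t ++ s, by simp, (Ch_append _ _ _).2 ⟨?_, hs⟩⟩
  rwa [label_append] at ht

theorem cone_linear {p₁ p₂ q : List ℕ} (h₁ : q ∈ cone ρ p₁) (h₂ : q ∈ cone ρ p₂) :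
    p₁ ∈ cone ρ p₂ ∨ p₂ ∈ cone ρ p₁ := by
  obtain ⟨t₁, rfl, ht₁⟩ := h₁
  obtain ⟨t₂, h, ht₂⟩ := h₂
  rcases List.append_eq_append_iff.1 h with ⟨u, rfl, rfl⟩ | ⟨u, rfl, rfl⟩
  · exact Or.inl ⟨u, rfl, ((Ch_append _ _ _).1 ht₂).2⟩
  · exact Or.inr ⟨u, rfl, ((Ch_append _ _ _).1 ht₁).2⟩

theorem rho_le_of_mem_cone {p q : List ℕ} (h : q ∈ cone ρ p) : ρ (label q) ≤ ρ (label p) := by
  obtain ⟨t, rfl, ht⟩ := h
  rw [label_append]
  exact Ch_le ht

/-- The components of a set of nodes: leftover points and roots of maximal full cones. -/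
def comp (ρ : ℕ → Ordinal.{1}) (S : Set (List ℕ)) : Set (List ℕ) :=
  {p | p ∈ S ∧ ∀ p', p ∈ cone ρ p' → cone ρ p' ⊆ S → p' = p}

theorem exists_root {S : Set (List ℕ)} {q : List ℕ} (hq : cone ρ q ⊆ S) :
    ∃ p ∈ comp ρ S, cone ρ p ⊆ S ∧ q ∈ cone ρ p := by
  obtain ⟨p, ⟨hp1, hp2⟩, hmin⟩ := (measure List.length).wf.has_min
    {p | cone ρ p ⊆ S ∧ q ∈ cone ρ p} ⟨q, hq, self_mem_cone q⟩
  refine ⟨p, ⟨hp1 (self_mem_cone p), fun p' h1 h2 => ?_⟩, hp1, hp2⟩
  have h3 := hmin p' ⟨h2, cone_subset h1 hp2⟩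
  obtain ⟨t, rfl, -⟩ := h1
  have h4 : ¬ p'.length < (t ++ p').length := h3
  have : t = [] := by
    rw [List.length_append] at h4
    exact List.length_eq_zero_iff.1 (by omega)
  simp [this]

theorem root_unique {S : Set (List ℕ)} {q p₁ p₂ : List ℕ} (h₁ : p₁ ∈ comp ρ S)
    (h₂ : p₂ ∈ comp ρ S) (f₁ : cone ρ p₁ ⊆ S) (f₂ : cone ρ p₂ ⊆ S) (q₁ : q ∈ cone ρ p₁)
    (q₂ : q ∈ cone ρ p₂) : p₁ = p₂ := by
  rcases cone_linear q₁ q₂ with h | h
  · exact (h₁.2 _ h f₂).symm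
  · exact h₂.2 _ h f₁

theorem mem_comp_of_not_full {S : Set (List ℕ)} {q : List ℕ} (hq : q ∈ S)
    (h : ¬ cone ρ q ⊆ S) : q ∈ comp ρ S :=
  ⟨hq, fun _ h1 h2 => absurd ((cone_subset h1).trans h2) h⟩

/-- A matching of components gives an embedding. -/
theorem exists_map {S S' : Set (List ℕ)} (φ : List ℕ → List ℕ)
    (hinj : Set.InjOn φ (comp ρ S)) (hmap : Set.MapsTo φ (comp ρ S) (comp ρ S'))
    (hfull : ∀ p ∈ comp ρ S, cone ρ p ⊆ S ↔ cone ρ (φ p) ⊆ S')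
    (hlab : ∀ p ∈ comp ρ S, lab_le ρ (label p) (label (φ p))) :
    ∃ g : List ℕ → List ℕ, Set.InjOn g S ∧ Set.MapsTo g S S' ∧
      ∀ i, ∀ T ⊆ S, (∃ p, label p = i ∧ g '' T = cone ρ p) ↔
        (∃ p, label p = i ∧ T = cone ρ p) := by
  classical
  let ψ : List ℕ → List ℕ := fun p => if label p = label (φ p) then φ p else label p :: φ p
  have hψ1 : ∀ p, label (ψ p) = label p := by
    intro p
    by_cases h : label p = label (φ p)
    · simp only [ψ, if_pos h]; exact h.symm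
    · simp only [ψ, if_neg h]; rfl
  have hψ2 : ∀ p ∈ comp ρ S, ψ p ∈ cone ρ (φ p) := by
    intro p hp
    by_cases h : label p = label (φ p)
    · simp only [ψ, if_pos h]; exact self_mem_cone _
    · simp only [ψ, if_neg h]
      exact ⟨[label p], rfl, ⟨lt_of_le_of_ne (hlab p hp).1 h, (hlab p hp).2⟩, trivial⟩
  have hroot : ∀ q, ∃ p t, cone ρ q ⊆ S →
      p ∈ comp ρ S ∧ cone ρ p ⊆ S ∧ q = t ++ p ∧ Ch ρ t (label p) := by
    intro q
    by_cases h : cone ρ q ⊆ S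
    · obtain ⟨p, h1, h2, t, h3, h4⟩ := exists_root h
      exact ⟨p, t, fun _ => ⟨h1, h2, h3, h4⟩⟩
    · exact ⟨[], [], fun h' => absurd h' h⟩
  choose root tt hroot using hroot
  let g : List ℕ → List ℕ := fun q => if cone ρ q ⊆ S then tt q ++ ψ (root q) else φ q
  have G1 : ∀ p ∈ comp ρ S, cone ρ p ⊆ S → ∀ t, Ch ρ t (label p) → g (t ++ p) = t ++ ψ p := by
    intro p hp hf t ht
    have hm : t ++ p ∈ cone ρ p := ⟨t, rfl, ht⟩
    have hf' : cone ρ (t ++ p) ⊆ S := (cone_subset hm).trans hf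
    obtain ⟨h1, h2, h3, h4⟩ := hroot _ hf'
    have h5 : root (t ++ p) = p := root_unique h1 hp h2 hf ⟨_, h3, h4⟩ hm
    have h6 : tt (t ++ p) = t := by
      rw [h5] at h3
      exact (List.append_cancel_right h3).symm
    simp only [g, if_pos hf', h5, h6]
  have G2 : ∀ r, cone ρ r ⊆ S → g '' cone ρ r = cone ρ (g r) ∧ label (g r) = label r ∧
      g r ∈ cone ρ (φ (root r)) := by
    intro r hr
    obtain ⟨h1, h2, h3, h4⟩ := hroot r hr
    generalize root r = p at h1 h2 h3 h4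
    generalize tt r = s at h3 h4
    subst h3
    rw [G1 p h1 h2 s h4]
    have hl : label (s ++ ψ p) = label (s ++ p) := by rw [label_append, label_append, hψ1]
    refine ⟨?_, hl, cone_subset (hψ2 p h1) ⟨s, rfl, by rw [hψ1]; exact h4⟩⟩
    ext x
    constructor
    · rintro ⟨_, ⟨t, rfl, ht⟩, rfl⟩
      rw [← List.append_assoc, G1 p h1 h2 (t ++ s)
        ((Ch_append _ _ _).2 ⟨by rwa [label_append] at ht, h4⟩)]
      exact ⟨t, by simp, by rw [hl]; exact ht⟩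
    · rintro ⟨t, rfl, ht⟩
      rw [hl] at ht
      refine ⟨t ++ (s ++ p), ⟨t, rfl, ht⟩, ?_⟩
      rw [← List.append_assoc, G1 p h1 h2 (t ++ s)
        ((Ch_append _ _ _).2 ⟨by rwa [label_append] at ht, h4⟩)]
      simp
  have G2' : ∀ r, cone ρ r ⊆ S → cone ρ (g r) ⊆ S' := by
    intro r hr
    obtain ⟨h1, h2, -, -⟩ := hroot r hr
    exact (cone_subset (G2 r hr).2.2).trans ((hfull _ h1).1 h2)
  have G3 : ∀ q ∈ S, ¬ cone ρ q ⊆ S → g q = φ q ∧ ¬ cone ρ (g q) ⊆ S' := by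
    intro q hq h
    have h1 : g q = φ q := by simp only [g, if_neg h]
    refine ⟨h1, fun h2 => h ?_⟩
    rw [h1] at h2
    exact (hfull q (mem_comp_of_not_full hq h)).2 h2
  have G4 : Set.InjOn g S := by
    intro q₁ hq₁ q₂ hq₂ h
    by_cases h₁ : cone ρ q₁ ⊆ S <;> by_cases h₂ : cone ρ q₂ ⊆ S
    · obtain ⟨a1, a2, a3, a4⟩ := hroot _ h₁
      obtain ⟨b1, b2, b3, b4⟩ := hroot _ h₂
      have h3 : φ (root q₁) = φ (root q₂) :=
        root_unique (hmap a1) (hmap b1) ((hfull _ a1).1 a2) ((hfull _ b1).1 b2)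
          (G2 q₁ h₁).2.2 (h ▸ (G2 q₂ h₂).2.2)
      have h4 : root q₁ = root q₂ := hinj a1 b1 h3
      simp only [g, if_pos h₁, if_pos h₂, h4] at h
      rw [a3, b3, List.append_cancel_right h, h4]
    · exact absurd (h ▸ G2' q₁ h₁) (G3 q₂ hq₂ h₂).2
    · exact absurd (h.symm ▸ G2' q₂ h₂) (G3 q₁ hq₁ h₁).2
    · rw [(G3 q₁ hq₁ h₁).1, (G3 q₂ hq₂ h₂).1] at h
      exact hinj (mem_comp_of_not_full hq₁ h₁) (mem_comp_of_not_full hq₂ h₂) h
  have G5 : Set.MapsTo g S S' := by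
    intro q hq
    by_cases h : cone ρ q ⊆ S
    · exact G2' q h (self_mem_cone _)
    · rw [(G3 q hq h).1]
      exact (hmap (mem_comp_of_not_full hq h)).1
  refine ⟨g, G4, G5, fun i T hT => ⟨?_, ?_⟩⟩
  · rintro ⟨p', hp', h⟩
    have h1 : p' ∈ g '' T := h ▸ self_mem_cone p'
    obtain ⟨r, hr, rfl⟩ := h1
    have h2 : cone ρ r ⊆ S := by
      by_contra h2
      refine (G3 r (hT hr) h2).2 ?_
      rw [← h]
      rintro _ ⟨x, hx, rfl⟩
      exact G5 (hT hx)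
    refine ⟨r, by rw [← (G2 r h2).2.1, hp'], ?_⟩
    rw [← (G2 r h2).1] at h
    exact (G4.image_eq_image_iff hT h2).1 h
  · rintro ⟨r, hr, rfl⟩
    exact ⟨g r, by rw [(G2 r hT).2.1, hr], (G2 r hT).1⟩

theorem exists_inj_of_forall₂ {α : Type} {r : α → α → Prop} {l₁ l₂ : List α}
    (h : List.Forall₂ r l₁ l₂) (h₁ : l₁.Nodup) (h₂ : l₂.Nodup) :
    ∃ φ : α → α, Set.InjOn φ {x | x ∈ l₁} ∧ ∀ x ∈ l₁, φ x ∈ l₂ ∧ r x (φ x) := by
  classical
  induction h with
  | nil => exact ⟨id, by simp, by simp⟩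
  | @cons a b l₁ l₂ hab _ ih =>
    obtain ⟨φ, h3, h4⟩ := ih (List.nodup_cons.1 h₁).2 (List.nodup_cons.1 h₂).2
    have ha : a ∉ l₁ := (List.nodup_cons.1 h₁).1
    have hb : b ∉ l₂ := (List.nodup_cons.1 h₂).1
    have hu : ∀ x ∈ l₁, Function.update φ a b x = φ x := fun x hx =>
      Function.update_of_ne (fun (h : x = a) => ha (h ▸ hx)) _ _
    refine ⟨Function.update φ a b, ?_, ?_⟩
    · intro x hx y hy hxy
      rcases List.mem_cons.1 hx with hx' | hx' <;> rcases List.mem_cons.1 hy with hy' | hy'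
      · rw [hx', hy']
      · rw [hx', Function.update_self, hu y hy'] at hxy
        exact absurd (hxy ▸ (h4 y hy').1) hb
      · rw [hy', Function.update_self, hu x hx'] at hxy
        exact absurd (hxy ▸ (h4 x hx').1) hb
      · rw [hu x hx', hu y hy'] at hxy
        exact h3 hx' hy' hxy
    · intro x hx
      rcases List.mem_cons.1 hx with rfl | hx
      · rw [Function.update_self]; exact ⟨List.mem_cons_self, hab⟩
      · rw [hu x hx]; exact ⟨List.mem_cons_of_mem _ (h4 x hx).1, (h4 x hx).2⟩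

/-- Finite sets of nodes are well-quasi-ordered under embedding. -/
theorem forest_wqo (S : ℕ → Set (List ℕ)) (hS : ∀ k, (S k).Finite) :
    ∃ k k', k < k' ∧ ∃ g : List ℕ → List ℕ, Set.InjOn g (S k) ∧ Set.MapsTo g (S k) (S k') ∧
      ∀ i, ∀ T ⊆ S k, (∃ p, label p = i ∧ g '' T = cone ρ p) ↔
        (∃ p, label p = i ∧ T = cone ρ p) := by
  classical
  let r : Prop × List ℕ → Prop × List ℕ → Prop := fun a b =>
    a.1 = b.1 ∧ lab_le ρ (label a.2) (label b.2)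
  have hpre : IsPreorder _ r :=
    { refl := fun a => ⟨rfl, le_rfl, le_rfl⟩
      trans := fun _ _ _ h h' => ⟨h.1.trans h'.1, h.2.1.trans h'.2.1, h.2.2.trans h'.2.2⟩ }
  have hr : WellQuasiOrdered r := by
    have h1 : WellQuasiOrdered (fun a b : Prop => a = b) := Finite.wellQuasiOrdered _
    have h2 : WellQuasiOrdered (fun a b : ℕ => a ≤ b) := wellQuasiOrdered_le
    have h3 : WellQuasiOrdered (fun a b : Ordinal.{1} => a ≤ b) := wellQuasiOrdered_le
    have h4 := h1.prod (h2.prod h3)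
    intro f
    obtain ⟨m, n, h5, h6⟩ := h4 fun k => ((f k).1, label (f k).2, ρ (label (f k).2))
    exact ⟨m, n, h5, h6⟩
  have hH := Set.PartiallyWellOrderedOn.partiallyWellOrderedOn_sublistForall₂ r
    (s := Set.univ) (Set.partiallyWellOrderedOn_of_wellQuasiOrdered hr _)
  have hc : ∀ k, (comp ρ (S k)).Finite := fun k => (hS k).subset fun _ h => h.1
  let tag : ℕ → List ℕ → Prop × List ℕ := fun k p => (cone ρ p ⊆ S k, p)
  let l : ℕ → List (Prop × List ℕ) := fun k => ((hc k).toFinset.toList).map (tag k)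
  have hl : ∀ k, (l k).Nodup := fun k =>
    (Finset.nodup_toList _).map fun _ _ h => congrArg Prod.snd h
  have hmem : ∀ k x, x ∈ l k ↔ ∃ p ∈ comp ρ (S k), tag k p = x := by
    intro k x
    simp [l]
  obtain ⟨k, k', hk, h⟩ := hH fun k => ⟨l k, fun _ _ => Set.mem_univ _⟩
  obtain ⟨l', h1, h2⟩ := List.sublistForall₂_iff.1 h
  obtain ⟨φ, h3, h4⟩ := exists_inj_of_forall₂ h1 (hl k) ((hl k').sublist h2)
  have h5 : ∀ p ∈ comp ρ (S k), ∃ p' ∈ comp ρ (S k'), tag k' p' = φ (tag k p) ∧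
      r (tag k p) (tag k' p') := by
    intro p hp
    obtain ⟨a, b⟩ := h4 _ ((hmem k _).2 ⟨p, hp, rfl⟩)
    obtain ⟨p', hp', h⟩ := (hmem k' _).1 (h2.subset a)
    exact ⟨p', hp', h, h ▸ b⟩
  refine ⟨k, k', hk, exists_map (fun p => (φ (tag k p)).2) ?_ ?_ ?_ ?_⟩
  · intro p hp q hq hpq
    obtain ⟨p', -, a, -⟩ := h5 p hp
    obtain ⟨q', -, b, -⟩ := h5 q hq
    have : p' = q' := by
      have h6 : (φ (tag k p)).2 = (φ (tag k q)).2 := hpq
      rw [← a, ← b] at h6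
      exact h6
    have h7 : φ (tag k p) = φ (tag k q) := by rw [← a, ← b, this]
    exact congrArg Prod.snd
      (h3 ((hmem k _).2 ⟨p, hp, rfl⟩) ((hmem k _).2 ⟨q, hq, rfl⟩) h7)
  · intro p hp
    obtain ⟨p', h6, a, -⟩ := h5 p hp
    change (φ (tag k p)).2 ∈ _
    rw [← a]; exact h6
  · intro p hp
    obtain ⟨p', -, a, b⟩ := h5 p hp
    rw [← a]
    exact iff_of_eq b.1
  · intro p hp
    obtain ⟨p', -, a, b⟩ := h5 p hp
    rw [← a]
    exact b.2

end Pool.Agent.P.MP_2feb70_lc
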