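import Mathlib
import Pool.Agent.P.MP_2feb70_lc.Defs
import Pool.Agent.P.MP_2feb70_lc.Ramsey
import Pool.Agent.P.MP_2feb70_lc.Bound

namespace Pool.Agent.P.MP_2feb70_lc

open FirstOrder CategoryTheory FirstOrder.Language FirstOrder.Language.Structure Ordinal

variable {L : FirstOrder.Language.{0, 0}} [L.IsRelational]

/-- Pull back of a relational structure along a map. -/
@[reducible] def comapStr {M R : Type} [L.Structure R] (f : M → R) : L.Structure M where
  funMap := fun {_} g => isEmptyElim g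
  RelMap := fun {_} r x => RelMap r (f ∘ x)

/-- An embedding of relational structures from its data. -/
def mkEmb {M N : Type} [L.Structure M] [L.Structure N] (f : M → N) (hf : Function.Injective f)
    (h : ∀ (n : ℕ) (r : L.Relations n) (x : Fin n → M), RelMap r (f ∘ x) ↔ RelMap r x) :
    M ↪[L] N where
  toFun := f
  inj' := hf
  map_fun' := fun {_} g => isEmptyElim g
  map_rel' := fun {n} r x => h n r x

@[simp] theorem mkEmb_apply {M N : Type} [L.Structure M] [L.Structure N] (f : M → N)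
    (hf : Function.Injective f)
    (h : ∀ (n : ℕ) (r : L.Relations n) (x : Fin n → M), RelMap r (f ∘ x) ↔ RelMap r x) (x : M) :
    mkEmb f hf h x = f x := rfl

/-- The finite structures that embed into `R` inside the subset `X`. -/
def ageIn (L : FirstOrder.Language.{0, 0}) (R : Type) [L.Structure R] (X : Set R) :
    Set (Bundled.{0} L.Structure) :=
  {N | Finite N ∧ ∃ e : N ↪[L] R, Set.range e ⊆ X}

theorem isAge_ageIn (R : Type) [L.Structure R] (X : Set R) : IsAge L (ageIn L R X) := by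
  refine ⟨fun G hG => hG.1, ?_, ?_⟩
  · rintro G ⟨hG, e, he⟩ H ⟨f⟩
    refine ⟨Finite.of_injective f f.injective, e.comp f, ?_⟩
    rintro _ ⟨x, rfl⟩
    exact he ⟨f x, rfl⟩
  · rintro G ⟨hG, e, he⟩ H ⟨hH, f, hf⟩
    let S : Set R := Set.range e ∪ Set.range f
    have hS : S.Finite := (Set.finite_range e).union (Set.finite_range f)
    let inst : L.Structure S := comapStr (Subtype.val : S → R)
    refine ⟨⟨S, inst⟩, ⟨hS, mkEmb Subtype.val Subtype.val_injective fun _ _ _ => Iff.rfl, ?_⟩,
      ⟨mkEmb (fun x => (⟨e x, Or.inl ⟨x, rfl⟩⟩ : S)) (fun x y h => e.injective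
        (congrArg Subtype.val h)) fun n r x => e.map_rel r x⟩,
      ⟨mkEmb (fun x => (⟨f x, Or.inr ⟨x, rfl⟩⟩ : S)) (fun x y h => f.injective
        (congrArg Subtype.val h)) fun n r x => f.map_rel r x⟩⟩
    rintro _ ⟨x, rfl⟩
    rcases x.2 with h | h
    · exact he h
    · exact hf h

omit [L.IsRelational] in
theorem ageIn_mono (R : Type) [L.Structure R] {X Y : Set R} (h : X ⊆ Y) :
    ageIn L R X ⊆ ageIn L R Y := fun _ ⟨h1, e, he⟩ => ⟨h1, e, he.trans h⟩

omit [L.IsRelational] in
/-- Any sequence of members of an age embeds into one structure all of whose finite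
substructures lie in the age. -/
theorem exists_limit {B : Set (Bundled.{0} L.Structure)} (hB : IsAge L B)
    (s : ℕ → Bundled.{0} L.Structure) (hs : ∀ k, s k ∈ B) :
    ∃ R : Bundled.{0} L.Structure, ageIn L R Set.univ ⊆ B ∧ ∀ k, Nonempty (s k ↪[L] R) := by
  choose P hPK hP hFP using fun (N : B) (n : ℕ) => hB.2.2 N N.2 (s (n + 1)) (hs _)
  let G : ℕ → B := @Nat.rec (fun _ => B) ⟨s 0, hs 0⟩ fun n N => ⟨P N n, hPK N n⟩
  let f : ∀ (i j : ℕ), i ≤ j → (G i).val ↪[L] (G j).val :=
    DirectedSystem.natLERec fun n => (hP _ n).some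
  refine ⟨Bundled.of (@DirectLimit L _ _ (fun n ↦ (G n).val) _ f _ _), ?_, ?_⟩
  · rintro N ⟨hN, e, -⟩
    have h1 : N ∈ L.age (@DirectLimit L _ _ (fun n ↦ (G n).val) _ f _ _) :=
      ⟨Structure.FG.of_finite, ⟨e⟩⟩
    rw [age_directLimit (fun n ↦ (G n).val) f] at h1
    obtain ⟨i, hi⟩ := Set.mem_iUnion.1 h1
    exact hB.2.1 _ (G i).2 _ hi.2
  · intro k
    refine ⟨Embedding.comp (DirectLimit.of L ℕ (fun n ↦ (G n).val) f k) ?_⟩
    rcases k with - | k
    · exact Embedding.refl _ _
    · exact (hFP _ k).some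

/-- A structure on `Fin n`, bundled. -/
def onFin (n : ℕ) (s : L.Structure (Fin n)) : Bundled.{0} L.Structure := ⟨Fin n, s⟩

/-- The structures on `Fin n` that belong to `B`. -/
def trace (n : ℕ) (B : Set (Bundled.{0} L.Structure)) : Set (L.Structure (Fin n)) :=
  {s | onFin n s ∈ B}

theorem str_eq_comap {n : ℕ} {R : Type} [L.Structure R] (s : L.Structure (Fin n))
    (e : onFin n s ↪[L] R) :
    s = comapStr (fun i : Fin n => e i) := by
  ext m r x
  · exact isEmptyElim r
  · exact (e.map_rel r x).symm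

theorem trace_finite {A : Set (Bundled.{0} L.Structure)} (hA : IsAge L A)
    [hwf : IsWellFounded (Subages L A) (Below L A)] (n : ℕ) : (trace n A).Finite := by
  classical
  by_contra hinf
  obtain ⟨B, hB, hmin⟩ := hwf.wf.has_min {B : Subages L A | (trace n B.1).Infinite}
    ⟨⟨A, hA, subset_rfl⟩, hinf⟩
  have hB' : (trace n B.1).Infinite := hB
  let s : ℕ → L.Structure (Fin n) := fun k => hB'.natEmbedding _ k
  have hsinj : Function.Injective s := fun k k' h =>
    (hB'.natEmbedding _).injective (Subtype.ext h)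
  have hsB : ∀ k, onFin n (s k) ∈ B.1 := fun k =>
    (hB'.natEmbedding _ k).2
  obtain ⟨R, hR, hF⟩ := exists_limit B.2.1 (fun k => onFin n (s k)) hsB
  let F : ∀ k, onFin n (s k) ↪[L] R := fun k => (hF k).some
  let X : Set ℕ → Set R := fun I => {x | ∃ k ∈ I, ∃ i : Fin n, F k i = x}
  -- every infinite union realises every type
  have key : ∀ I : Set ℕ, I.Infinite → ∀ j,
      onFin n (s j) ∈ ageIn L R (X I) := by
    intro I hI j
    have hsub : ageIn L R (X I) ⊆ B.1 := (ageIn_mono _ (Set.subset_univ _)).trans hR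
    have hinf' : (trace n (ageIn L R (X I))).Infinite := by
      refine (hI.image hsinj.injOn).mono ?_
      rintro _ ⟨k, hk, rfl⟩
      refine ⟨inferInstanceAs (Finite (Fin n)), F k, ?_⟩
      rintro _ ⟨i, rfl⟩
      exact ⟨k, hk, i, rfl⟩
    have h := hmin ⟨ageIn L R (X I), isAge_ageIn _ _, hsub.trans B.2.2⟩ hinf'
    have h' : B.1 ⊆ ageIn L R (X I) := by
      by_contra h'
      exact h ⟨hsub, h'⟩
    exact h' (hsB j)
  let N := (n * n) ^ n
  let c : Finset ℕ → Finset (Fin (N + 1)) := fun l =>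
    Finset.univ.filter fun j => onFin n (s j) ∈ ageIn L R (X ↑l)
  have hc : ∀ l : Finset ℕ, l.card = n → (c l).card ≤ N := by
    intro l hl
    have h1 : ∀ j : Fin (N + 1), ∃ g : Fin n → ℕ × Fin n, j ∈ c l →
        (∀ i, (g i).1 ∈ l) ∧ s j = comapStr (fun i => F (g i).1 (g i).2) := by
      intro j
      by_cases hj : j ∈ c l
      · obtain ⟨-, e, he⟩ := (Finset.mem_filter.1 hj).2
        have : ∀ i : Fin n, ∃ p : ℕ × Fin n, p.1 ∈ l ∧ F p.1 p.2 = e i := by
          intro i
          obtain ⟨k, hk, i', h⟩ := he ⟨i, rfl⟩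
          exact ⟨(k, i'), hk, h⟩
        choose g hg1 hg2 using this
        refine ⟨g, fun _ => ⟨hg1, ?_⟩⟩
        rw [str_eq_comap (s j) e]
        congr 1
        funext i
        exact (hg2 i).symm
      · exact ⟨fun i => (0, i), fun h => absurd h hj⟩
    choose g hg using h1
    have h2 : (c l).card ≤ (Fintype.piFinset fun _ : Fin n =>
        l ×ˢ (Finset.univ : Finset (Fin n))).card := by
      refine Finset.card_le_card_of_injOn g (fun j hj => ?_) ?_
      · have := (hg j hj).1
        simp only [Finset.mem_coe, Fintype.mem_piFinset, Finset.mem_product,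
          Finset.mem_univ, and_true]
        exact this
      · intro j hj j' hj' h
        have h3 : s j = s j' := by rw [(hg j hj).2, (hg j' hj').2, h]
        exact Fin.ext (hsinj h3)
    simpa [hl, N] using h2
  obtain ⟨T, -, hT, x, hx⟩ := inf_ramsey n c Set.univ Set.infinite_univ
  obtain ⟨l₀, hl₀, hl₀'⟩ := hT.exists_subset_card_eq n
  have hxc : x.card ≤ N := by rw [← hx l₀ hl₀ hl₀']; exact hc l₀ hl₀'
  obtain ⟨j, hj⟩ : ∃ j, j ∉ x := by
    by_contra h
    push Not at h
    have : x = Finset.univ := Finset.eq_univ_iff_forall.2 h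
    rw [this, Finset.card_univ, Fintype.card_fin] at hxc
    omega
  obtain ⟨hfin, e, he⟩ := key T hT j
  have h4 : ∀ i : Fin n, ∃ k ∈ T, ∃ i' : Fin n, F k i' = e i := fun i => he ⟨i, rfl⟩
  choose k hk hk' using h4
  have h5 : (Finset.univ.image k).card ≤ n := by
    simpa using Finset.card_image_le (s := (Finset.univ : Finset (Fin n))) (f := k)
  obtain ⟨l, hl1, hl2, hl3⟩ := Finset.exists_subsuperset_card_eq
    (Finset.subset_union_left (s₁ := Finset.univ.image k) (s₂ := l₀)) h5
    (hl₀'.ge.trans (Finset.card_le_card Finset.subset_union_right))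
  have hlT : (↑l : Set ℕ) ⊆ T := by
    intro y hy
    rcases Finset.mem_union.1 (hl2 hy) with h | h
    · obtain ⟨i, -, rfl⟩ := Finset.mem_image.1 h
      exact hk i
    · exact hl₀ h
  refine hj ?_
  rw [← hx l hlT hl3]
  refine Finset.mem_filter.2 ⟨Finset.mem_univ _, hfin, e, ?_⟩
  rintro _ ⟨i, rfl⟩
  obtain ⟨i', hi'⟩ := hk' i
  exact ⟨k i, hl1 (Finset.mem_image_of_mem _ (Finset.mem_univ _)), i', hi'⟩

theorem exists_onFin (G : Bundled.{0} L.Structure) [Finite G] :
    ∃ (n : ℕ) (s : L.Structure (Fin n)), Nonempty (G ↪[L] onFin n s) ∧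
      Nonempty (onFin n s ↪[L] G) := by
  obtain ⟨n, ⟨f⟩⟩ := Finite.exists_equiv_fin G
  refine ⟨n, comapStr f.symm, ⟨mkEmb (N := onFin n (comapStr f.symm)) f f.injective ?_⟩,
    ⟨mkEmb (M := onFin n (comapStr f.symm)) f.symm f.symm.injective fun _ _ _ => Iff.rfl⟩⟩
  intro m r x
  change RelMap r (f.symm ∘ (f ∘ x)) ↔ _
  have : f.symm ∘ (f ∘ x) = x := by funext i; simp
  rw [this]

/-- Upper bound: heights are countable. -/
theorem height_lt {A : Set (Bundled.{0} L.Structure)} (hA : IsAge L A)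
    [hwf : IsWellFounded (Subages L A) (Below L A)] : height L A hA < ω₁ := by
  let le : Bundled.{0} L.Structure → Bundled.{0} L.Structure → Prop :=
    fun G H => Nonempty (G ↪[L] H)
  have : IsPreorder _ le :=
    { refl := fun G => ⟨Embedding.refl L G⟩
      trans := fun _ _ _ ⟨f⟩ ⟨g⟩ => ⟨g.comp f⟩ }
  let Q : Set (Bundled.{0} L.Structure) :=
    insert (onFin 0 { funMap := fun {_} g => isEmptyElim g, RelMap := fun {_} _ _ => False })
      (⋃ n, onFin n '' trace n A)
  have hQ : Q.Countable :=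
    (Set.countable_iUnion fun n => ((trace_finite hA n).image _).countable).insert _
  obtain ⟨e, he⟩ := hQ.exists_eq_range (Set.insert_nonempty _ _)
  have hwf' : IsWellFounded (Subages L A) fun d d' : Subages L A => d.1 ⊂ d'.1 := hwf
  refine rank_lt_omega_one (le := le) (e := e) (A := A) (D := Subages L A) (fun d => d.1)
    (fun x hx y hy => hA.2.1 x hx y hy) ?_ (fun d => d.2.2)
    (fun d x hx y hy => d.2.1.2.1 x hx y hy) (fun d => d.2.1.2.2) ?_ _
  · intro x hx
    have := hA.1 x hx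
    obtain ⟨n, s, h1, h2⟩ := exists_onFin x
    have h3 : onFin n s ∈ Q :=
      Set.mem_insert_of_mem _ (Set.mem_iUnion.2 ⟨n, s, hA.2.1 x hx _ h2, rfl⟩)
    rw [he] at h3
    obtain ⟨k, hk⟩ := h3
    exact ⟨k, by rw [hk]; exact h1, by rw [hk]; exact h2⟩
  · intro B h1 h2 h3
    exact ⟨⟨B, ⟨fun G hG => hA.1 G (h1 hG), h2, h3⟩, h1⟩, rfl⟩

end Pool.Agent.P.MP_2feb70_lc
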