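import Mathlib
import Pool.Agent.P.MP_2feb70_lc.Profile
import Pool.Agent.P.MP_2feb70_lc.Forest

namespace Pool.Agent.P.MP_2feb70_lc

open FirstOrder CategoryTheory FirstOrder.Language FirstOrder.Language.Structure Ordinal

/-- The language with countably many relation symbols of each arity. -/
def Lh : FirstOrder.Language.{0, 0} := ⟨fun _ => Empty, fun _ => ℕ⟩

instance : Lh.IsRelational := fun _ => inferInstanceAs (IsEmpty Empty)

/-- The forest structure: the symbol `i` holds of tuples enumerating a cone with label `i`. -/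
@[reducible] def forestStr (ρ : ℕ → Ordinal.{1}) : Lh.Structure (List ℕ) where
  funMap := fun {_} g => isEmptyElim g
  RelMap := fun {_} (i : ℕ) x => ∃ p, label p = i ∧ Set.range x = cone ρ p

/-- The forest structure, bundled. -/
def forest (ρ : ℕ → Ordinal.{1}) : Bundled.{0} Lh.Structure := ⟨List ℕ, forestStr ρ⟩

theorem forest_age_wqo (ρ : ℕ → Ordinal.{1}) (N : ℕ → Bundled.{0} Lh.Structure)
    (hN : ∀ k, N k ∈ ageIn Lh (forest ρ) Set.univ) :
    ∃ k k', k < k' ∧ Nonempty (N k ↪[Lh] N k') := by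
  choose h1 e _ using hN
  obtain ⟨k, k', hk, g, g1, g2, g3⟩ := forest_wqo (ρ := ρ) (fun k => Set.range (e k))
    fun k => by have := h1 k; exact Set.finite_range _
  have h2 : ∀ x : N k, ∃ y : N k', e k' y = g (e k x) := fun x => g2 ⟨x, rfl⟩
  choose f hf using h2
  refine ⟨k, k', hk, ⟨mkEmb f ?_ ?_⟩⟩
  · intro x y h
    refine (e k).injective (g1 ⟨x, rfl⟩ ⟨y, rfl⟩ ?_)
    rw [← hf, ← hf, h]
  · intro n r x
    rw [← (e k').map_rel r (f ∘ x), ← (e k).map_rel r x]
    have h3 : Set.range (e k' ∘ (f ∘ x)) = g '' Set.range (e k ∘ x) := by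
      rw [← Set.range_comp]
      congr 1
      funext i
      exact hf _
    change (∃ p, label p = r ∧ Set.range (e k' ∘ (f ∘ x)) = cone ρ p) ↔
      (∃ p, label p = r ∧ Set.range (e k ∘ x) = cone ρ p)
    rw [h3]
    refine g3 r _ ?_
    rintro _ ⟨i, rfl⟩
    exact ⟨x i, rfl⟩

theorem forest_wf (ρ : ℕ → Ordinal.{1}) :
    IsWellFounded (Subages Lh (ageIn Lh (forest ρ) Set.univ)) (Below Lh _) := by
  refine ⟨wellFounded_iff_isEmpty_descending_chain.2 ⟨fun ⟨B, hB⟩ => ?_⟩⟩
  have h1 : ∀ k, ∃ G ∈ (B k).1, G ∉ (B (k + 1)).1 := fun k => Set.exists_of_ssubset (hB k)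
  choose G hG1 hG2 using h1
  have anti : Antitone fun k => (B k).1 := antitone_nat_of_succ_le fun k => (hB k).1
  obtain ⟨k, k', hk, h⟩ := forest_age_wqo ρ G fun k => (B k).2.2 (hG1 k)
  exact hG2 k ((B (k + 1)).2.1.2.1 _ (anti (Nat.succ_le_of_lt hk) (hG1 k')) _ h)

/-- The sub-age of the nodes of label below `β`. -/
def level (ρ : ℕ → Ordinal.{1}) (β : Ordinal.{1}) :
    Subages Lh (ageIn Lh (forest ρ) Set.univ) :=
  ⟨ageIn Lh (forest ρ) {q : List ℕ | ρ (label q) < β}, isAge_ageIn _ _,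
    ageIn_mono _ (Set.subset_univ _)⟩

theorem level_below (ρ : ℕ → Ordinal.{1}) {β γ : Ordinal.{1}} (h : β < γ) (j : ℕ)
    (hj : ρ j = β) : Below Lh _ (level ρ β) (level ρ γ) := by
  refine ⟨ageIn_mono _ fun q (hq : ρ (label q) < β) => hq.trans h, fun hsub => ?_⟩
  let S : Set (forest ρ) := cone ρ [j]
  have hS : S.Finite := cone_finite _
  let inst : Lh.Structure S := comapStr (Subtype.val : S → forest ρ)
  have h1 : (⟨S, inst⟩ : Bundled.{0} Lh.Structure) ∈ (level ρ γ).1 := by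
    refine ⟨hS, mkEmb Subtype.val Subtype.val_injective fun _ _ _ => Iff.rfl, ?_⟩
    rintro _ ⟨x, rfl⟩
    have := rho_le_of_mem_cone x.2
    exact lt_of_le_of_lt (this.trans (le_of_eq hj)) h
  obtain ⟨-, e, he⟩ := hsub h1
  have : Finite S := hS
  obtain ⟨n, ⟨f⟩⟩ := Finite.exists_equiv_fin S
  have h2 : RelMap (L := Lh) (M := S) (n := n) (j : ℕ) f.symm := by
    refine ⟨[j], rfl, ?_⟩
    ext q
    constructor
    · rintro ⟨i, rfl⟩
      exact (f.symm i).2
    · intro hq
      exact ⟨f ⟨q, hq⟩, congrArg Subtype.val (f.symm_apply_apply ⟨q, hq⟩)⟩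
  obtain ⟨p, hp1, hp2⟩ := (e.map_rel (n := n) (j : ℕ) f.symm).2 h2
  have h3 : p ∈ Set.range (e ∘ f.symm) := hp2 ▸ self_mem_cone p
  obtain ⟨i, rfl⟩ := h3
  have h4 : ρ (label (e (f.symm i))) < β := he ⟨_, rfl⟩
  rw [show label (e (f.symm i)) = j from hp1, hj] at h4
  exact lt_irrefl _ h4

theorem le_rank_level (ρ : ℕ → Ordinal.{1}) {α : Ordinal.{1}} (hρ : ∀ β < α, ∃ j, ρ j = β)
    (β : Ordinal.{1}) (hβ : β ≤ α) :
    β ≤ @IsWellFounded.rank _ (Below Lh _) (forest_wf ρ) (level ρ β) := by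
  induction β using WellFoundedLT.induction with
  | ind β ih =>
    refine le_of_forall_lt fun γ hγ => ?_
    obtain ⟨j, hj⟩ := hρ γ (hγ.trans_le hβ)
    exact (ih γ hγ (hγ.le.trans hβ)).trans_lt
      (@IsWellFounded.rank_lt_of_rel _ _ _ _ (forest_wf ρ) (level_below ρ hγ j hj))

/-- Passing to a sub-age keeps well-foundedness and the rank. -/
theorem restrict {L : FirstOrder.Language.{0, 0}} {A : Set (Bundled.{0} L.Structure)}
    [hwf : IsWellFounded (Subages L A) (Below L A)] (B : Subages L A) :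
    ∃ _ : IsWellFounded (Subages L B.1) (Below L B.1),
      height L B.1 B.2.1 = IsWellFounded.rank (Below L A) B := by
  let ι : Subages L B.1 → Subages L A := fun C => ⟨C.1, C.2.1, C.2.2.trans B.2.2⟩
  have h : IsWellFounded (Subages L B.1) (Below L B.1) :=
    ⟨Subrelation.wf (r := InvImage (Below L A) ι) (fun h => h) (InvImage.wf ι hwf.wf)⟩
  refine ⟨h, ?_⟩
  have key : ∀ C : Subages L B.1,
      IsWellFounded.rank (Below L B.1) C = IsWellFounded.rank (Below L A) (ι C) := by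
    intro C
    induction C using h.wf.induction with
    | _ C ih =>
    rw [IsWellFounded.rank_eq, IsWellFounded.rank_eq (Below L A)]
    refine le_antisymm (Ordinal.iSup_le fun ⟨D, hD⟩ => ?_) (Ordinal.iSup_le fun ⟨D, hD⟩ => ?_)
    · rw [ih D hD]
      exact Ordinal.le_iSup (fun b : {b // Below L A b (ι C)} =>
        Order.succ (IsWellFounded.rank (Below L A) b.1)) ⟨ι D, hD⟩
    · let D' : Subages L B.1 := ⟨D.1, D.2.1, hD.1.trans C.2.2⟩
      have h1 : IsWellFounded.rank (Below L A) D = IsWellFounded.rank (Below L B.1) D' :=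
        (ih D' hD).symm
      change Order.succ (IsWellFounded.rank (Below L A) D) ≤ _
      rw [h1]
      exact Ordinal.le_iSup (fun b : {b // Below L B.1 b C} =>
        Order.succ (IsWellFounded.rank (Below L B.1) b.1)) ⟨D', hD⟩
  exact key ⟨B.1, B.2.1, subset_rfl⟩

theorem exists_height {α : Ordinal.{1}} (hα : α < ω₁) :
    ∃ (A : Set (Bundled.{0} Lh.Structure)) (hA : IsAge Lh A)
      (_ : IsWellFounded (Subages Lh A) (Below Lh A)), height Lh A hA = α := by
  have hc : (Set.Iic α).Countable := by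
    rw [← Set.Iio_insert]
    refine Set.Countable.insert _ ?_
    rw [← Set.countable_coe_iff, ← Cardinal.mk_le_aleph0_iff, Cardinal.mk_Iio_ordinal,
      Cardinal.lift_le_aleph0, ← Cardinal.lt_aleph_one_iff]
    exact Cardinal.lt_omega_iff_card_lt.1 hα
  obtain ⟨ρ, hρ⟩ := hc.exists_eq_range ⟨α, Set.mem_Iic.2 le_rfl⟩
  have hρ' : ∀ β < α, ∃ j, ρ j = β := fun β hβ => by
    have : β ∈ Set.range ρ := hρ ▸ hβ.le
    exact this
  have := forest_wf ρ
  obtain ⟨B, hB⟩ := IsWellFounded.mem_range_rank_of_le (le_rank_level ρ hρ' α le_rfl)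
  obtain ⟨h1, h2⟩ := restrict B
  exact ⟨B.1, B.2.1, h1, h2.trans hB⟩

end Pool.Agent.P.MP_2feb70_lc
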